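import Mathlib

set_option autoImplicit false

/-!
# A spectrally arbitrary sign pattern with a superpattern that is not spectrally arbitrary

`S` is the direct sum `M₄ ⊕ T₂`.  It is spectrally arbitrary.  `S'` is obtained from `S` by
replacing the zero entry in position `(1, 4)` by `+`.  The polynomial `x ^ 6` is not the
characteristic polynomial of a realization of `S'`: the block of order 4 would have to be
nilpotent, and this is impossible.
-/

namespace Pool.Agent.Results.MP_557f7f_co.SpectralSuperpattern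

open Polynomial Matrix

/-- `A` is a realization of the sign pattern `S`. -/
def Realizes {n : ℕ} (A : Matrix (Fin n) (Fin n) ℝ) (S : Matrix (Fin n) (Fin n) SignType) : Prop :=
  ∀ i j, SignType.sign (A i j) = S i j

/-- The sign pattern `S` is spectrally arbitrary: every monic real polynomial of degree `n` is the
characteristic polynomial of a realization of `S`. -/
def SpectrallyArbitrary {n : ℕ} (S : Matrix (Fin n) (Fin n) SignType) : Prop :=
  ∀ p : ℝ[X], p.Monic → p.natDegree = n →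
    ∃ A : Matrix (Fin n) (Fin n) ℝ, Realizes A S ∧ A.charpoly = p

/-- `S'` is a superpattern of `S`: it agrees with `S` at every nonzero entry of `S`. -/
def IsSuperpattern {n : ℕ} (S' S : Matrix (Fin n) (Fin n) SignType) : Prop :=
  ∀ i j, S i j ≠ 0 → S' i j = S i j

/-- The pattern `M₄ ⊕ T₂`. -/
def S : Matrix (Fin 6) (Fin 6) SignType :=
  !![1, 1, -1, 0, 0, 0;
     -1, -1, 1, 0, 0, 0;
     0, 0, 0, -1, 0, 0;
     1, 1, 0, 0, 0, 0;
     0, 0, 0, 0, 1, 1;
     0, 0, 0, 0, -1, -1]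

/-- The superpattern: one zero entry of `M₄` is replaced by `+`. -/
def S' : Matrix (Fin 6) (Fin 6) SignType :=
  !![1, 1, -1, 1, 0, 0;
     -1, -1, 1, 0, 0, 0;
     0, 0, 0, -1, 0, 0;
     1, 1, 0, 0, 0, 0;
     0, 0, 0, 0, 1, 1;
     0, 0, 0, 0, -1, -1]

/-- The pattern `M₄`. -/
def M4 : Matrix (Fin 4) (Fin 4) SignType :=
  !![1, 1, -1, 0; -1, -1, 1, 0; 0, 0, 0, -1; 1, 1, 0, 0]

/-- The pattern `T₂`. -/
def T2 : Matrix (Fin 2) (Fin 2) SignType := !![1, 1; -1, -1]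

theorem charpoly4 (a b c d e f g h k r : ℝ) :
    (!![a, b, c, r; d, e, f, 0; 0, 0, 0, g; h, k, 0, 0] : Matrix (Fin 4) (Fin 4) ℝ).charpoly =
      X ^ 4 - C (a + e) * X ^ 3 + C (a * e - b * d - r * h) * X ^ 2
        - C (r * (d * k - e * h) + g * (c * h + f * k)) * X
        + C (g * (a * f * k - b * f * h + c * e * h - c * d * k)) := by
  have h1 : charmatrix (!![a, b, c, r; d, e, f, 0; 0, 0, 0, g; h, k, 0, 0] :
      Matrix (Fin 4) (Fin 4) ℝ) =
      !![X - C a, -C b, -C c, -C r; -C d, X - C e, -C f, 0; 0, 0, X, -C g; -C h, -C k, 0, X] := by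
    ext i j : 2
    fin_cases i <;> fin_cases j <;> simp
  rw [Matrix.charpoly, h1]
  simp [Matrix.det_succ_row_zero, Fin.sum_univ_succ, Fin.succAbove]
  ring

/-- Two positive numbers with given sum and product. -/
theorem exists_sum_prod (T W : ℝ) (hT : 0 < T) (hW : 0 < W) (h : 4 * W ≤ T ^ 2) :
    ∃ p q : ℝ, 0 < p ∧ 0 < q ∧ p + q = T ∧ p * q = W := by
  have h0 : 0 ≤ T ^ 2 - 4 * W := by linarith
  have h1 : √(T ^ 2 - 4 * W) ^ 2 = T ^ 2 - 4 * W := Real.sq_sqrt h0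
  have h2 : 0 ≤ √(T ^ 2 - 4 * W) := Real.sqrt_nonneg _
  have h3 : √(T ^ 2 - 4 * W) < T := by
    by_contra hc
    rw [not_lt] at hc
    nlinarith
  refine ⟨(T + √(T ^ 2 - 4 * W)) / 2, (T - √(T ^ 2 - 4 * W)) / 2, by linarith, by linarith,
    by ring, ?_⟩
  nlinarith

/-- The realization of `M₄` with given parameters. -/
theorem realize_M4_aux (a e x y p q : ℝ) (ha : 0 < a) (he : 0 < e) (hx : 0 < x) (hy : 0 < y)
    (hp : 0 < p) (hq : 0 < q) :
    ∃ A : Matrix (Fin 4) (Fin 4) ℝ, Realizes A M4 ∧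
      A.charpoly = X ^ 4 - C (a - e) * X ^ 3 + C (p * q / (x * y) - a * e) * X ^ 2
        - C (x - y) * X + C (p + q - e * x - a * y) := by
  refine ⟨!![a, p / y, -x, 0; -(q / x), -e, y, 0; 0, 0, 0, -1; 1, 1, 0, 0], ?_, ?_⟩
  · intro i j
    fin_cases i <;> fin_cases j
    · exact sign_pos ha
    · exact sign_pos (div_pos hp hy)
    · exact sign_neg (neg_neg_of_pos hx)
    · exact sign_zero
    · exact sign_neg (neg_neg_of_pos (div_pos hq hx))
    · exact sign_neg (neg_neg_of_pos he)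
    · exact sign_pos hy
    · exact sign_zero
    · exact sign_zero
    · exact sign_zero
    · exact sign_zero
    · exact sign_neg (neg_neg_of_pos one_pos)
    · exact sign_pos one_pos
    · exact sign_pos one_pos
    · exact sign_zero
    · exact sign_zero
  · rw [charpoly4]
    have e1 : a + -e = a - e := by ring
    have e2 : a * -e - p / y * -(q / x) - 0 * 1 = p * q / (x * y) - a * e := by
      field_simp
      ring
    have e3 : 0 * (-(q / x) * 1 - -e * 1) + -1 * (-x * 1 + y * 1) = x - y := by ring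
    have e4 : -1 * (a * y * 1 - p / y * y * 1 + -x * -e * 1 - -x * -(q / x) * 1) =
        p + q - e * x - a * y := by
      field_simp
      ring
    rw [e1, e2, e3, e4]

/-- The pattern `M₄` realizes every quartic with positive constant term, and every quartic
`x ^ 2 (x ^ 2 - E₁ x + E₂)` with `4 E₂ ≤ E₁ ^ 2`. -/
theorem realize_M4 (E1 E2 E3 E4 : ℝ) (h : 0 < E4 ∨ (E3 = 0 ∧ E4 = 0 ∧ 4 * E2 ≤ E1 ^ 2)) :
    ∃ A : Matrix (Fin 4) (Fin 4) ℝ, Realizes A M4 ∧
      A.charpoly = X ^ 4 - C E1 * X ^ 3 + C E2 * X ^ 2 - C E3 * X + C E4 := by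
  obtain ⟨a, ha0, ha⟩ : ∃ a : ℝ, a = |E1| + |E2| + 1 ∧ 0 < a :=
    ⟨_, rfl, by positivity⟩
  obtain ⟨e, he⟩ : ∃ e : ℝ, e = a - E1 := ⟨_, rfl⟩
  have l1 := le_abs_self E1
  have n1 := abs_nonneg E1
  have n2 := abs_nonneg E2
  have l2 := neg_abs_le E2
  have he1 : |E2| + 1 ≤ e := by rw [he, ha0]; linarith
  have he0 : 0 < e := by linarith
  have ha1 : 1 ≤ a := by rw [ha0]; linarith
  have hD : 0 < E2 + a * e := by nlinarith
  rcases h with h | ⟨h3, h4, h2⟩
  · obtain ⟨x, y, hx, hy, hxy, hsm⟩ : ∃ x y : ℝ, 0 < x ∧ 0 < y ∧ x - y = E3 ∧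
        4 * ((E2 + a * e) * (x * y)) ≤ E4 ^ 2 := by
      obtain ⟨ε, hε0, hε1, hε2⟩ : ∃ ε : ℝ, 0 < ε ∧ ε ≤ 1 ∧
          ε * (4 * (E2 + a * e) * (1 + |E3|)) ≤ E4 ^ 2 := by
        have hden : 0 < 4 * (E2 + a * e) * (1 + |E3|) := by positivity
        refine ⟨min 1 (E4 ^ 2 / (4 * (E2 + a * e) * (1 + |E3|))), ?_, min_le_left _ _, ?_⟩
        · exact lt_min one_pos (div_pos (by positivity) hden)
        · rw [← le_div_iff₀ hden]
          exact min_le_right _ _
      have n3 := abs_nonneg E3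
      have hkey : 4 * ((E2 + a * e) * (ε * (ε + |E3|))) ≤ E4 ^ 2 := by
        have h5 : ε * (ε + |E3|) ≤ ε * (1 + |E3|) := by
          apply mul_le_mul_of_nonneg_left _ hε0.le
          linarith
        nlinarith
      rcases le_total 0 E3 with h5 | h5
      · refine ⟨ε + E3, ε, by linarith, hε0, by ring, ?_⟩
        rw [abs_of_nonneg h5] at hkey
        rw [mul_comm (ε + E3) ε]
        exact hkey
      · refine ⟨ε, ε - E3, hε0, by linarith, by ring, ?_⟩
        rw [abs_of_nonpos h5] at hkey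
        rw [show ε - E3 = ε + -E3 by ring]
        exact hkey
    have hT : E4 ≤ E4 + e * x + a * y := by
      have := mul_pos he0 hx
      have := mul_pos ha hy
      linarith
    have hT2 : E4 ^ 2 ≤ (E4 + e * x + a * y) ^ 2 := by
      apply pow_le_pow_left₀ h.le hT
    have hxy0 : 0 < x * y := mul_pos hx hy
    obtain ⟨p, q, hp, hq, hs, hpr⟩ := exists_sum_prod (E4 + e * x + a * y)
      ((E2 + a * e) * (x * y)) (by linarith) (mul_pos hD hxy0) (by linarith)
    obtain ⟨A, hA, hc⟩ := realize_M4_aux a e x y p q ha he0 hx hy hp hq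
    refine ⟨A, hA, ?_⟩
    rw [hc, hpr, mul_div_assoc, div_self hxy0.ne', mul_one, hxy]
    have e1 : a - e = E1 := by rw [he]; ring
    have e2 : E2 + a * e - a * e = E2 := by ring
    have e4 : p + q - e * x - a * y = E4 := by rw [hs]; ring
    rw [e1, e2, e4]
  · obtain ⟨p, q, hp, hq, hs, hpr⟩ := exists_sum_prod (a + e) (E2 + a * e) (by linarith) hD
      (by rw [he] at hD ⊢; nlinarith)
    obtain ⟨A, hA, hc⟩ := realize_M4_aux a e 1 1 p q ha he0 one_pos one_pos hp hq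
    refine ⟨A, hA, ?_⟩
    rw [hc, hpr]
    have e1 : a - e = E1 := by rw [he]; ring
    have e2 : (E2 + a * e) / (1 * 1) - a * e = E2 := by ring
    have e3 : (1 : ℝ) - 1 = E3 := by rw [h3]; ring
    have e4 : p + q - e * 1 - a * 1 = E4 := by rw [hs, h4]; ring
    rw [e1, e2, e3, e4]

/-- The pattern `T₂` realizes every monic real quadratic. -/
theorem realize_T2 (s t : ℝ) :
    ∃ A : Matrix (Fin 2) (Fin 2) ℝ, Realizes A T2 ∧ A.charpoly = X ^ 2 - C s * X + C t := by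
  obtain ⟨a, ha0, ha⟩ : ∃ a : ℝ, a = |s| + |t| + 1 ∧ 0 < a := ⟨_, rfl, by positivity⟩
  have l1 := le_abs_self s
  have n1 := abs_nonneg s
  have n2 := abs_nonneg t
  have l2 := neg_abs_le t
  have hd : |t| + 1 ≤ a - s := by rw [ha0]; linarith
  have ha1 : 1 ≤ a := by rw [ha0]; linarith
  have hc : 0 < t + a * (a - s) := by nlinarith
  refine ⟨!![a, 1; -(t + a * (a - s)), -(a - s)], ?_, ?_⟩
  · intro i j
    fin_cases i <;> fin_cases j
    · exact sign_pos ha
    · exact sign_pos one_pos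
    · exact sign_neg (neg_neg_of_pos hc)
    · exact sign_neg (neg_neg_of_pos (by linarith))
  · rw [Matrix.charpoly_fin_two, Matrix.trace_fin_two, Matrix.det_fin_two]
    have e1 : a + -(a - s) = s := by ring
    have e2 : a * -(a - s) - 1 * -(t + a * (a - s)) = t := by ring
    simp only [Matrix.of_apply, Matrix.cons_val', Matrix.cons_val_zero, Matrix.cons_val_one,
      Matrix.cons_val_fin_one]
    rw [e1, e2]

/-- A monic quadratic. -/
noncomputable def Q (s t : ℝ) : ℝ[X] := X ^ 2 - C s * X + C t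

/-- The condition under which `Q s t * Q s' t'` is realized by `M₄`. -/
def G (s t s' t' : ℝ) : Prop :=
  0 < t * t' ∨ (s * t' + s' * t = 0 ∧ t * t' = 0 ∧ 4 * (t + t' + s * s') ≤ (s + s') ^ 2)

theorem Q_mul_Q (s t s' t' : ℝ) :
    Q s t * Q s' t' = X ^ 4 - C (s + s') * X ^ 3 + C (t + t' + s * s') * X ^ 2
      - C (s * t' + s' * t) * X + C (t * t') := by
  simp only [Q, C_add, C_mul]
  ring

theorem regroup_core (s1 t1 s2 t2 s3 : ℝ) (h1 : 0 < t1) (h2 : t2 < 0) :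
    ∃ s t s' t' u v : ℝ, G s t s' t' ∧
      Q s1 t1 * Q s2 t2 * Q s3 0 = Q s t * Q s' t' * Q u v := by
  obtain ⟨α, β, hα, hβ, hs, ht⟩ : ∃ α β : ℝ, 0 < α ∧ 0 < β ∧ α - β = s2 ∧ -(α * β) = t2 := by
    have h0 : 0 ≤ s2 ^ 2 - 4 * t2 := by nlinarith
    have hsq : √(s2 ^ 2 - 4 * t2) ^ 2 = s2 ^ 2 - 4 * t2 := Real.sq_sqrt h0
    have hn : 0 ≤ √(s2 ^ 2 - 4 * t2) := Real.sqrt_nonneg _
    have hlt : |s2| < √(s2 ^ 2 - 4 * t2) := by
      apply Real.lt_sqrt_of_sq_lt
      rw [sq_abs]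
      linarith
    have l1 := le_abs_self s2
    have l2 := neg_abs_le s2
    refine ⟨(s2 + √(s2 ^ 2 - 4 * t2)) / 2, (√(s2 ^ 2 - 4 * t2) - s2) / 2, by linarith,
      by linarith, by ring, by nlinarith⟩
  subst hs ht
  rcases lt_trichotomy s3 0 with h3 | h3 | h3
  · refine ⟨s1, t1, s3 - β, -(s3 * β), α, 0, Or.inl ?_, ?_⟩
    · have : 0 < -(s3 * β) := by nlinarith
      positivity
    · simp only [Q, C_mul, C_sub, C_neg, C_0]
      ring
  · subst h3
    refine ⟨α - β, -(α * β), 0, 0, s1, t1, Or.inr ⟨by ring, by ring, ?_⟩, ?_⟩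
    · have : 0 < α * β := mul_pos hα hβ
      nlinarith [sq_nonneg (α - β)]
    · ring
  · refine ⟨s1, t1, s3 + α, s3 * α, -β, 0, Or.inl ?_, ?_⟩
    · positivity
    · simp only [Q, C_add, C_mul, C_sub, C_neg, C_0]
      ring

theorem regroup_core' (s1 t1 s2 t2 s3 t3 : ℝ) (h1 : 0 < t1) (h2 : t2 < 0) (h3 : t3 = 0)
    (F : ℝ[X]) (hF : F = Q s1 t1 * Q s2 t2 * Q s3 t3) :
    ∃ s t s' t' u v : ℝ, G s t s' t' ∧ F = Q s t * Q s' t' * Q u v := by
  subst h3 hF
  exact regroup_core s1 t1 s2 t2 s3 h1 h2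

theorem regroup (s1 t1 s2 t2 s3 t3 : ℝ) :
    ∃ s t s' t' u v : ℝ, G s t s' t' ∧
      Q s1 t1 * Q s2 t2 * Q s3 t3 = Q s t * Q s' t' * Q u v := by
  rcases lt_trichotomy t1 0 with h1 | h1 | h1 <;> rcases lt_trichotomy t2 0 with h2 | h2 | h2 <;>
    rcases lt_trichotomy t3 0 with h3 | h3 | h3
  all_goals first
    | exact ⟨s1, t1, s2, t2, s3, t3, Or.inl (mul_pos h1 h2), rfl⟩
    | exact ⟨s1, t1, s2, t2, s3, t3, Or.inl (mul_pos_of_neg_of_neg h1 h2), rfl⟩
    | exact ⟨s1, t1, s3, t3, s2, t2, Or.inl (mul_pos h1 h3), by ring⟩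
    | exact ⟨s1, t1, s3, t3, s2, t2, Or.inl (mul_pos_of_neg_of_neg h1 h3), by ring⟩
    | exact ⟨s2, t2, s3, t3, s1, t1, Or.inl (mul_pos h2 h3), by ring⟩
    | exact ⟨s2, t2, s3, t3, s1, t1, Or.inl (mul_pos_of_neg_of_neg h2 h3), by ring⟩
    | exact ⟨s1, t1, s2, t2, s3, t3, Or.inr ⟨by rw [h1, h2]; ring, by rw [h1, h2]; ring,
        by rw [h1, h2]; nlinarith [sq_nonneg (s1 - s2)]⟩, rfl⟩
    | exact ⟨s1, t1, s3, t3, s2, t2, Or.inr ⟨by rw [h1, h3]; ring, by rw [h1, h3]; ring,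
        by rw [h1, h3]; nlinarith [sq_nonneg (s1 - s3)]⟩, by ring⟩
    | exact ⟨s2, t2, s3, t3, s1, t1, Or.inr ⟨by rw [h2, h3]; ring, by rw [h2, h3]; ring,
        by rw [h2, h3]; nlinarith [sq_nonneg (s2 - s3)]⟩, by ring⟩
    | exact regroup_core' s1 t1 s2 t2 s3 t3 h1 h2 h3 _ rfl
    | exact regroup_core' s2 t2 s1 t1 s3 t3 h2 h1 h3 _ (by ring)
    | exact regroup_core' s1 t1 s3 t3 s2 t2 h1 h3 h2 _ (by ring)
    | exact regroup_core' s3 t3 s1 t1 s2 t2 h3 h1 h2 _ (by ring)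
    | exact regroup_core' s2 t2 s3 t3 s1 t1 h2 h3 h1 _ (by ring)
    | exact regroup_core' s3 t3 s2 t2 s1 t1 h3 h2 h1 _ (by ring)

/-- The pattern `S = M₄ ⊕ T₂` is spectrally arbitrary. -/
theorem S_arbitrary : SpectrallyArbitrary S := by
  intro p hp hd
  have hp6 : IsMonicOfDegree p (4 + 2) := ⟨hd, hp⟩
  obtain ⟨f1, g, hf1, hg, rfl⟩ := hp6.eq_isMonicOfDegree_two_mul_isMonicOfDegree
  obtain ⟨f2, f3, hf2, hf3, rfl⟩ :=
    IsMonicOfDegree.eq_isMonicOfDegree_two_mul_isMonicOfDegree (n := 2) hg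
  obtain ⟨s1, t1, rfl⟩ := isMonicOfDegree_two_iff'.1 hf1
  obtain ⟨s2, t2, rfl⟩ := isMonicOfDegree_two_iff'.1 hf2
  obtain ⟨s3, t3, rfl⟩ := isMonicOfDegree_two_iff'.1 hf3
  obtain ⟨s, t, s', t', u, v, hG, hE⟩ := regroup s1 t1 s2 t2 s3 t3
  obtain ⟨A, hA, hAc⟩ := realize_M4 (s + s') (t + t' + s * s') (s * t' + s' * t) (t * t') hG
  obtain ⟨B, hB, hBc⟩ := realize_T2 u v
  let e : Fin 4 ⊕ Fin 2 ≃ Fin 6 := finSumFinEquiv
  refine ⟨Matrix.reindex e e (Matrix.fromBlocks A 0 0 B), ?_, ?_⟩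
  · intro i j
    obtain ⟨i, rfl⟩ := e.surjective i
    obtain ⟨j, rfl⟩ := e.surjective j
    rw [Matrix.reindex_apply, Matrix.submatrix_apply, Equiv.symm_apply_apply,
      Equiv.symm_apply_apply]
    rcases i with i | i <;> rcases j with j | j
    · rw [Matrix.fromBlocks_apply₁₁, hA i j]
      fin_cases i <;> fin_cases j <;> rfl
    · rw [Matrix.fromBlocks_apply₁₂, Matrix.zero_apply, sign_zero]
      fin_cases i <;> fin_cases j <;> rfl
    · rw [Matrix.fromBlocks_apply₂₁, Matrix.zero_apply, sign_zero]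
      fin_cases i <;> fin_cases j <;> rfl
    · rw [Matrix.fromBlocks_apply₂₂, hB i j]
      fin_cases i <;> fin_cases j <;> rfl
  · rw [Matrix.charpoly_reindex, Matrix.charpoly_fromBlocks_zero₁₂, hAc, hBc, ← Q_mul_Q]
    have h2 : X ^ 2 - C u * X + C v = Q u v := rfl
    rw [h2, ← hE, mul_assoc]
    rfl

/-- The block of order 4 of `S'` is never nilpotent (normalized signs). -/
theorem not_nilpotent_aux (a b c d f g h k r : ℝ) (hb : 0 < b)
    (hd : 0 < d) (hf : 0 < f) (hg : 0 < g) (hh : 0 < h) (hk : 0 < k) (hr : 0 < r)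
    (e2 : b * d = a ^ 2 + r * h) (e3 : r * (a * h - d * k) + g * (c * h - f * k) = 0)
    (e4 : f * (a * k - b * h) + c * (a * h - d * k) = 0) : False := by
  have h1 : g * f * (b * h ^ 2 + d * k ^ 2 - 2 * a * h * k) = -(r * (d * k - a * h) ^ 2) := by
    linear_combination (-(d * k - a * h)) * e3 - g * h * e4
  have h2 : b * h ^ 2 + d * k ^ 2 ≤ 2 * a * h * k := by
    have h3 : 0 ≤ r * (d * k - a * h) ^ 2 := by positivity
    have h4 : 0 < g * f := by positivity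
    by_contra hc
    rw [not_le] at hc
    have h5 : 0 < g * f * (b * h ^ 2 + d * k ^ 2 - 2 * a * h * k) :=
      mul_pos h4 (by linarith)
    linarith
  have h3 : (b * h ^ 2 + d * k ^ 2) ^ 2 ≤ (2 * a * h * k) ^ 2 :=
    pow_le_pow_left₀ (by positivity) h2 2
  have h4 : (b * h ^ 2 + d * k ^ 2) ^ 2 =
      (b * h ^ 2 - d * k ^ 2) ^ 2 + 4 * (b * d) * (h ^ 2 * k ^ 2) := by ring
  rw [h4, e2] at h3
  have h5 : 0 ≤ (b * h ^ 2 - d * k ^ 2) ^ 2 := sq_nonneg _
  have h6 : 0 < r * h * (h ^ 2 * k ^ 2) := by positivity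
  nlinarith

theorem not_nilpotent (a b c d e f g h k r : ℝ) (hb : 0 < b)
    (hd : d < 0) (hf : 0 < f) (hg : g < 0) (hh : 0 < h) (hk : 0 < k) (hr : 0 < r)
    (hM : (!![a, b, c, r; d, e, f, 0; 0, 0, 0, g; h, k, 0, 0] :
      Matrix (Fin 4) (Fin 4) ℝ).charpoly = X ^ 4) : False := by
  rw [charpoly4] at hM
  have c3 := congrArg (fun q => coeff q 3) hM
  have c2 := congrArg (fun q => coeff q 2) hM
  have c1 := congrArg (fun q => coeff q 1) hM
  have c0 := congrArg (fun q => coeff q 0) hM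
  simp only [coeff_add, coeff_sub, coeff_C_mul, coeff_X_pow, coeff_X, coeff_C] at c3 c2 c1 c0
  norm_num at c3 c2 c1 c0
  have he : e = -a := by linarith
  subst he
  have c0' : a * f * k - b * f * h + c * -a * h - c * d * k = 0 := c0.resolve_left hg.ne
  refine not_nilpotent_aux a b (-c) (-d) f (-g) h k r hb (by linarith) hf (by linarith) hh hk hr
    ?_ ?_ ?_
  · linarith
  · linarith
  · linarith

/-- No realization of `S'` has characteristic polynomial `x ^ 6`. -/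
theorem S'_not_arbitrary : ¬ SpectrallyArbitrary S' := by
  intro hS
  obtain ⟨A, hA, hc⟩ := hS (X ^ 6) (monic_X_pow 6) (natDegree_X_pow 6)
  have z : ∀ i j, S' i j = 0 → A i j = 0 := fun i j h => sign_eq_zero_iff.1 ((hA i j).trans h)
  let e : Fin 4 ⊕ Fin 2 ≃ Fin 6 := finSumFinEquiv
  obtain ⟨B, hB⟩ : ∃ B : Matrix (Fin 4) (Fin 4) ℝ,
      B = !![A 0 0, A 0 1, A 0 2, A 0 3; A 1 0, A 1 1, A 1 2, 0; 0, 0, 0, A 2 3;
        A 3 0, A 3 1, 0, 0] := ⟨_, rfl⟩
  obtain ⟨D, hD⟩ : ∃ D : Matrix (Fin 2) (Fin 2) ℝ, D = !![A 4 4, A 4 5; A 5 4, A 5 5] := ⟨_, rfl⟩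
  have hAB : A = Matrix.reindex e e (Matrix.fromBlocks B 0 0 D) := by
    ext i j
    obtain ⟨i, rfl⟩ := e.surjective i
    obtain ⟨j, rfl⟩ := e.surjective j
    rw [Matrix.reindex_apply, Matrix.submatrix_apply, Equiv.symm_apply_apply,
      Equiv.symm_apply_apply]
    rcases i with i | i <;> rcases j with j | j
    · rw [Matrix.fromBlocks_apply₁₁, hB]
      fin_cases i <;> fin_cases j <;> first | rfl | exact z _ _ rfl
    · rw [Matrix.fromBlocks_apply₁₂, Matrix.zero_apply]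
      fin_cases i <;> fin_cases j <;> exact z _ _ rfl
    · rw [Matrix.fromBlocks_apply₂₁, Matrix.zero_apply]
      fin_cases i <;> fin_cases j <;> exact z _ _ rfl
    · rw [Matrix.fromBlocks_apply₂₂, hD]
      fin_cases i <;> fin_cases j <;> rfl
  rw [hAB, Matrix.charpoly_reindex, Matrix.charpoly_fromBlocks_zero₁₂] at hc
  have hdvd : B.charpoly ∣ X ^ 6 := ⟨D.charpoly, hc.symm⟩
  obtain ⟨m, -, hm⟩ := (dvd_prime_pow Polynomial.prime_X 6).1 hdvd
  have hm2 : B.charpoly = X ^ m :=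
    Polynomial.eq_of_monic_of_associated B.charpoly_monic (monic_X_pow m) hm
  have hm3 : m = 4 := by
    have h1 : B.charpoly.natDegree = 4 := by
      rw [Matrix.charpoly_natDegree_eq_dim, Fintype.card_fin]
    rw [hm2, natDegree_X_pow] at h1
    exact h1
  subst hm3
  rw [hB] at hm2
  have p01 : 0 < A 0 1 := sign_eq_one_iff.1 (hA 0 1)
  have p03 : 0 < A 0 3 := sign_eq_one_iff.1 (hA 0 3)
  have p10 : A 1 0 < 0 := sign_eq_neg_one_iff.1 (hA 1 0)
  have p12 : 0 < A 1 2 := sign_eq_one_iff.1 (hA 1 2)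
  have p23 : A 2 3 < 0 := sign_eq_neg_one_iff.1 (hA 2 3)
  have p30 : 0 < A 3 0 := sign_eq_one_iff.1 (hA 3 0)
  have p31 : 0 < A 3 1 := sign_eq_one_iff.1 (hA 3 1)
  exact not_nilpotent _ _ _ _ _ _ _ _ _ _ p01 p10 p12 p23 p30 p31 p03 hm2

theorem agree : ∀ i j : Fin 6, ((S i j == 0) || (S' i j == S i j)) = true := by decide

theorem isSuperpattern : IsSuperpattern S' S := by
  intro i j h
  rcases (Bool.or_eq_true _ _).mp (agree i j) with h1 | h1
  · exact absurd (eq_of_beq h1) h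
  · exact eq_of_beq h1

/-- There is a spectrally arbitrary sign pattern with a superpattern that is not spectrally
arbitrary. -/
theorem result : ∃ (n : ℕ) (P P' : Matrix (Fin n) (Fin n) SignType),
    SpectrallyArbitrary P ∧ IsSuperpattern P' P ∧ ¬ SpectrallyArbitrary P' :=
  ⟨6, S, S', S_arbitrary, isSuperpattern, S'_not_arbitrary⟩

end Pool.Agent.Results.MP_557f7f_co.SpectralSuperpattern
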